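import Pool.Agent.R330.LT.Fin
import Pool.Agent.H95R2.Leh.Congr

set_option autoImplicit false

/-!
# The number of composite `n` with `φ(n) ∣ n - a(n)` and exactly `r` prime factors

It is at most `C(ε) 2^((1/800 + ε) 2^r)`.
-/

namespace Pool.Agent.Results.MP_b50d59_nt.CountByPrimeCount

/-- For every `ε > 0` there is `C` such that for every `r` there are at most
`C 2 ^ ((1/800 + ε) 2 ^ r)` composite integers `n > 4` with `φ(n) ∣ n - a(n)` and exactly `r`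
distinct prime factors; here `a(n)` is the largest exponent in the prime factorisation of `n`. -/
theorem result (ε : ℝ) (hε : 0 < ε) : ∃ C : ℝ, 0 < C ∧ ∀ r : ℕ,
    {n : ℕ | 4 < n ∧ ¬ n.Prime ∧ n.totient ∣ (n - Nca8c8b9b.a n) ∧
      n.primeFactors.card = r}.Finite ∧
    (({n : ℕ | 4 < n ∧ ¬ n.Prime ∧ n.totient ∣ (n - Nca8c8b9b.a n) ∧
      n.primeFactors.card = r}.ncard : ℕ) : ℝ) ≤ C * (2 : ℝ) ^ ((1 / 800 + ε) * 2 ^ r) := by
  obtain ⟨C, hC, h⟩ := Pool.Agent.R330.LT.count ε hε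
  refine ⟨C, hC, fun r => ?_⟩
  have hleh : ∀ n ∈ {n : ℕ | 4 < n ∧ ¬ n.Prime ∧ n.totient ∣ (n - Nca8c8b9b.a n) ∧
      n.primeFactors.card = r}, Pool.Agent.H95R2.Leh.Leh n ∧ n.primeFactors.card = r := by
    rintro n ⟨h1, h2, h3, h4⟩
    exact ⟨Pool.Agent.H95R2.Leh.leh_of_congr h1 h2 h3, h4⟩
  have hfin : {n : ℕ | 4 < n ∧ ¬ n.Prime ∧ n.totient ∣ (n - Nca8c8b9b.a n) ∧
      n.primeFactors.card = r}.Finite := by
    apply (Set.finite_lt_nat (2 ^ (2 ^ r))).subset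
    intro n hn
    obtain ⟨h5, h6⟩ := hleh n hn
    have h7 := Pool.Agent.R330.LT.leh_bound h5
    rw [h6] at h7
    exact lt_of_le_of_lt (Nat.le_self_pow (by norm_num) n) h7
  refine ⟨hfin, ?_⟩
  rw [Set.ncard_eq_toFinset_card _ hfin]
  exact h r hfin.toFinset (fun n hn => hleh n (hfin.mem_toFinset.1 hn))

end Pool.Agent.Results.MP_b50d59_nt.CountByPrimeCount
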