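import Pool.Agent.R330.LT.PolyC
import Pool.Agent.H95R2.Leh.Congr

set_option autoImplicit false

/-!
# Polynomial values `n` that are composite with `φ(n) ∣ n - a(n)`

For every polynomial of degree `k ≥ 1` with integer coefficients at most `x^(1 - 1/(k²+k+1) + ε)` of
the values at `1, ..., x` have this property.
-/

namespace Pool.Agent.Results.MP_b50d59_nt.PolynomialValues

open Polynomial

open Classical in
/-- For every polynomial `f` with integer coefficients of degree `k ≥ 1` and every `ε > 0` there is `C`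
such that for all `x ≥ 1` there are at most `C x^(1 - 1/(k²+k+1) + ε)` integers `m` in `[1, x]` for
which `f(m)` is a composite integer `n > 4` with `φ(n) ∣ n - a(n)`, where `a(n)` is the largest
exponent in the prime factorisation of `n`. -/
theorem result (f : ℤ[X]) (k : ℕ) (hk : f.natDegree = k) (hk1 : 1 ≤ k) (ε : ℝ) (hε : 0 < ε) :
    ∃ C : ℝ, 0 < C ∧ ∀ x : ℕ, 1 ≤ x →
      (((Finset.Icc 1 x).filter (fun m : ℕ => ∃ n : ℕ, f.eval (m : ℤ) = n ∧
        4 < n ∧ ¬ n.Prime ∧ n.totient ∣ (n - Nca8c8b9b.a n))).card : ℝ) ≤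
      C * (x : ℝ) ^ (1 - 1 / ((k : ℝ) ^ 2 + k + 1) + ε) := by
  obtain ⟨C, hC, h⟩ := Pool.Agent.R330.LT.count_poly f hk hk1 ε hε
  refine ⟨C, hC, fun x hx => h x hx _ ?_⟩
  intro m hm
  rw [Finset.mem_filter] at hm
  obtain ⟨h1, n, h2, h3, h4, h5⟩ := hm
  exact ⟨h1, n, h2, Pool.Agent.H95R2.Leh.leh_of_congr h3 h4 h5⟩

end Pool.Agent.Results.MP_b50d59_nt.PolynomialValues
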