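import Pool.Agent.R330.LT.Seq
import Pool.Agent.H95R2.Leh.Congr

set_option autoImplicit false

/-!
# Composite `n` with `φ(n) ∣ n - a(n)`: size against the number of prime factors

`n ^ 100 < 2 ^ (2 ^ ω(n))`, that is `ω(n) > log₂ (100 log₂ n)`.
-/

namespace Pool.Agent.Results.MP_b50d59_nt.SizeByPrimeCount

/-- If `n > 4` is composite and `φ(n) ∣ n - a(n)`, where `a(n)` is the largest exponent in the prime
factorisation of `n`, then `n ^ 100 < 2 ^ (2 ^ ω(n))`, where `ω(n)` is the number of distinct prime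
factors of `n`. -/
theorem result (n : ℕ) (h4 : 4 < n) (hc : ¬ n.Prime) (h : n.totient ∣ (n - Nca8c8b9b.a n)) :
    n ^ 100 < 2 ^ (2 ^ n.primeFactors.card) :=
  Pool.Agent.R330.LT.leh_bound (Pool.Agent.H95R2.Leh.leh_of_congr h4 hc h)

end Pool.Agent.Results.MP_b50d59_nt.SizeByPrimeCount
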