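import Pool.Agent.Results.MP_b50d59_nt.ShortIntervals
import Pool.Agent.R482.ST.Star

/-!
# No composite `n` with `φ(n) ∣ n - a(n)` near powers, orbits and other sequences

Let `f_n`, `n = 0, 1, 2, …`, be positive functions on `(a, ∞)`, `a ≥ 0`, such that `f_n(t) / t` is nondecreasing, and such
that the sequence `f_n(t)` has exponent of convergence at most `τ` for each `t > a`: for instance `f_n(t) = t ^ (v_n)` for
exponents `v_n ≥ 1` (`τ = 0`; all powers, the powers `t ^ (3 ^ n)` of Mills, …), the orbits `f_n(t) = g (g (⋯ g (t)))` of any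
map `g` with `g(t) > t` and `g(t) / t` nondecreasing (`τ = 0`; for instance of `t² + c`), and `f_n(t) = v_n t`.
Let `θ < 1`. For all `α > a` outside a set of Hausdorff dimension at most `(1 / 2 + τ) / (1 - θ)`, each `c` and all but
finitely many `n` no composite `m > 4` with `|m - f_n(α)| ≤ c f_n(α) ^ θ` satisfies `φ(m) ∣ m - a(m)` (or, what is the same,
`φ(m) ∣ m - 1`).
-/

set_option autoImplicit false

namespace Pool.Agent.Results.MP_b50d59_nt.StarshapedLehmer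

open Finset

/-- the functions `f n` are positive on `(a, ∞)`, `a ≥ 0`, and `f n x / x` is nondecreasing there -/
def Starshaped (a : ℝ) (f : ℕ → ℝ → ℝ) : Prop :=
  0 ≤ a ∧ ∀ n : ℕ, ∀ x y : ℝ, a < x → x ≤ y → 0 < f n x ∧ f n x / x ≤ f n y / y

/-- for each `x > a` the exponent of convergence of the sequence `f n x` is at most `τ` -/
def ExpLe (a : ℝ) (f : ℕ → ℝ → ℝ) (τ : ℝ) : Prop :=
  ∀ x : ℝ, a < x → ∀ t : ℝ, τ < t → Summable (fun n : ℕ => (f n x) ^ (-t))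

/-- the composite numbers `m > 4` with `φ(m) ∣ m - a(m)` -/
def Sol : Set ℕ := {m : ℕ | 4 < m ∧ ¬ m.Prime ∧ m.totient ∣ (m - Nca8c8b9b.a m)}

open Classical in
lemma count (ε : ℝ) (hε : 0 < ε) : ∃ C : ℝ, ∀ X : ℕ, 1 ≤ X →
    (((Ioc 0 X).filter (fun m => m ∈ Sol)).card : ℝ) ≤ C * (X : ℝ) ^ (1 / 2 + ε) := by
  obtain ⟨C, hC, h⟩ := ShortIntervals.result
  refine ⟨C * (2 ^ ε / Real.sqrt (2 * ε)), fun X hX => ?_⟩
  have hX1 : (1 : ℝ) ≤ X := by exact_mod_cast hX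
  have hX0 : (0 : ℝ) < X := by linarith
  have h1 := (h 0 X hX).1
  have hset : (Ioc 0 X).filter (fun m => m ∈ Sol) = (Ioc 0 (0 + X)).filter (fun n : ℕ =>
      4 < n ∧ ¬ n.Prime ∧ n.totient ∣ (n - Nca8c8b9b.a n)) := by
    rw [zero_add]
    exact filter_congr fun m _ => Iff.rfl
  rw [hset]
  refine h1.trans ?_
  have h2 : Real.log (((0 : ℕ) : ℝ) + X + 1) ≤ (2 * (X : ℝ)) ^ (2 * ε) / (2 * ε) := by
    have e1 := Real.log_le_rpow_div (show (0 : ℝ) ≤ ((0 : ℕ) : ℝ) + X + 1 by positivity) (show 0 < 2 * ε by positivity)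
    refine e1.trans ?_
    apply div_le_div_of_nonneg_right _ (by positivity)
    apply Real.rpow_le_rpow (by positivity) _ (by positivity)
    push_cast
    linarith
  have h3 : (X : ℝ) * Real.log (((0 : ℕ) : ℝ) + X + 1) ≤ ((X : ℝ) ^ (1 / 2 + ε) * (2 ^ ε / Real.sqrt (2 * ε))) ^ 2 := by
    have e1 : ((X : ℝ) ^ (1 / 2 + ε) * (2 ^ ε / Real.sqrt (2 * ε))) ^ 2 =
        (X : ℝ) * ((2 * (X : ℝ)) ^ (2 * ε) / (2 * ε)) := by
      rw [mul_pow, div_pow, Real.sq_sqrt (by positivity), ← Real.rpow_natCast, ← Real.rpow_natCast,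
        ← Real.rpow_mul hX0.le, ← Real.rpow_mul (by norm_num), Real.mul_rpow (by norm_num) hX0.le]
      have e2 : (X : ℝ) ^ ((1 / 2 + ε) * ((2 : ℕ) : ℝ)) = X * (X : ℝ) ^ (2 * ε) := by
        rw [show (1 / 2 + ε) * ((2 : ℕ) : ℝ) = 1 + 2 * ε by push_cast; ring, Real.rpow_add hX0, Real.rpow_one]
      have e3 : (2 : ℝ) ^ (ε * ((2 : ℕ) : ℝ)) = 2 ^ (2 * ε) := by
        congr 1
        push_cast
        ring
      rw [e2, e3]
      ring
    rw [e1]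
    exact mul_le_mul_of_nonneg_left h2 hX0.le
  have h4 : Real.sqrt ((X : ℝ) * Real.log (((0 : ℕ) : ℝ) + X + 1)) ≤
      (X : ℝ) ^ (1 / 2 + ε) * (2 ^ ε / Real.sqrt (2 * ε)) := by
    rw [← Real.sqrt_sq (show 0 ≤ (X : ℝ) ^ (1 / 2 + ε) * (2 ^ ε / Real.sqrt (2 * ε)) by positivity)]
    exact Real.sqrt_le_sqrt h3
  calc C * Real.sqrt ((X : ℝ) * Real.log (((0 : ℕ) : ℝ) + X + 1))
      ≤ C * ((X : ℝ) ^ (1 / 2 + ε) * (2 ^ ε / Real.sqrt (2 * ε))) := mul_le_mul_of_nonneg_left h4 hC.le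
    _ = _ := by ring

/-- **Theorem.** Let `f` be starshaped functions on `(a, ∞)` of exponent of convergence at most `τ ≥ 0` and `θ < 1`. There is a
set `E` of Hausdorff dimension at most `(1 / 2 + τ) / (1 - θ)` such that for each `α > a` outside `E`, each `c` and all but
finitely many `n`, for NO natural number `m` with `|m - f_n(α)| ≤ c f_n(α) ^ θ` one has `m > 4`, `m` composite and
`φ(m) ∣ m - a(m)`. The functions `v_n x`, `v_n > 0`, are starshaped on `(0, ∞)`, of exponent `τ` if `v` has exponent of convergence at most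
`τ`; the functions `x ^ (v_n)`, `v_n ≥ 1`, are starshaped on `(1, ∞)`, of exponent `0` if the sums of `exp (-t v_n)` converge
for `t > 0`; and the iterates of a map `g` with `g(x) > x` for `x > a` and `g(x) / x` nondecreasing are starshaped on
`(a, ∞)`, of exponent `0`. -/
theorem result :
    (∀ (a : ℝ) (f : ℕ → ℝ → ℝ) (τ θ : ℝ), Starshaped a f → 0 ≤ τ → ExpLe a f τ → θ < 1 →
      ∃ E : Set ℝ, dimH E ≤ ENNReal.ofReal ((1 / 2 + τ) / (1 - θ)) ∧ ∀ α : ℝ, a < α → α ∉ E → ∀ c : ℝ,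
        ∃ n₀ : ℕ, ∀ n : ℕ, n₀ ≤ n → ∀ m : ℕ, |(m : ℝ) - f n α| ≤ c * (f n α) ^ θ → 4 < m → ¬ m.Prime →
          ¬ m.totient ∣ (m - Nca8c8b9b.a m)) ∧
    (∀ (v : ℕ → ℝ) (τ : ℝ), (∀ n, 0 < v n) → (∀ t : ℝ, τ < t → Summable (fun n : ℕ => (v n) ^ (-t))) →
      Starshaped 0 (fun n x => v n * x) ∧ ExpLe 0 (fun n x => v n * x) τ) ∧
    (∀ v : ℕ → ℝ, (∀ n, 1 ≤ v n) → (∀ t : ℝ, 0 < t → Summable fun n : ℕ => Real.exp (-(t * v n))) →
      Starshaped 1 (fun n x => x ^ (v n)) ∧ ExpLe 1 (fun n x => x ^ (v n)) 0) ∧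
    (∀ (a : ℝ) (g : ℝ → ℝ), 0 ≤ a → (∀ x y : ℝ, a < x → x ≤ y → g x / x ≤ g y / y) → (∀ x : ℝ, a < x → x < g x) →
      Starshaped a (fun n x => g^[n] x) ∧ ExpLe a (fun n x => g^[n] x) 0) := by
  refine ⟨fun a f τ θ hf hτ hE hθ1 => ?_, Pool.Agent.R482.ST.ex_mul, Pool.Agent.R482.ST.ex_pow,
    Pool.Agent.R482.ST.ex_orbit⟩
  obtain ⟨E, h2, h3⟩ := Pool.Agent.R482.ST.win_nat Sol hf hτ hE (s := 1 / 2) (by norm_num) hθ1 count
  refine ⟨E, h2, fun α hα hαE c => ?_⟩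
  obtain ⟨n₀, hn⟩ := h3 α hα hαE c
  exact ⟨n₀, fun n hn1 m hm g1 g2 g3 => (hn n hn1 m hm).2 ⟨g1, g2, g3⟩⟩

end Pool.Agent.Results.MP_b50d59_nt.StarshapedLehmer
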